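import Pool.Agent.Y113.MT.HStm
import Pool.Agent.TH125.Nod.Fft2

/-!
# Project MT, second part (helper113): the first fundamental theorem for `sp(A)` (author helper492)
-/

set_option autoImplicit false

open Matrix Finset

namespace Pool.Agent.Y492.MT

open Pool.Agent.Y113.MT Pool.Agent.TH125.Nod

theorem fftq : S_FFTQ := by
  intro n N r A hdet hA T hT
  have hu : IsUnit A.det := isUnit_iff_ne_zero.mpr hdet
  have hAi : (A⁻¹)ᵀ = -A⁻¹ := by
    rw [Matrix.transpose_nonsing_inv, hA]
    apply Matrix.inv_eq_left_inv
    rw [neg_mul_neg, Matrix.nonsing_inv_mul A hu]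
  have hAs : ∀ a b, A⁻¹ a b = -A⁻¹ b a := by
    intro a b
    have := congrFun (congrFun hAi b) a
    rw [Matrix.transpose_apply, Matrix.neg_apply] at this
    exact this
  have key := fft (K := ℚ) (B := Fin n) (ι := Unit) (M := Fin N → ℚ) (κ := fun _ => ())
    (Q := A⁻¹) (R := A) (s := fun _ => -1) (fun _ => Or.inr rfl)
    (by intro a b h; exact absurd rfl h)
    (by
      intro a b
      rw [hAs a b]
      push_cast
      ring)
    (Matrix.nonsing_inv_mul A hu) (Fintype.card (Fin r)) (Fin r) (fun _ => ()) T rfl
    (by intro J hJ; exact absurd (fun _ => rfl) hJ)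
    (by
      intro u v _ J
      have hX : ((Matrix.single u v 1 + Matrix.single v u 1) * A⁻¹) * A +
          A * ((Matrix.single u v 1 + Matrix.single v u 1) * A⁻¹)ᵀ = 0 := by
        rw [Matrix.transpose_mul, hAi, Matrix.mul_assoc, Matrix.nonsing_inv_mul A hu,
          Matrix.mul_one, ← Matrix.mul_assoc, mul_neg, Matrix.mul_nonsing_inv A hu,
          Matrix.transpose_add, Matrix.transpose_single, Matrix.transpose_single, neg_mul,
          Matrix.one_mul, add_comm (Matrix.single v u (1 : ℚ)), add_neg_cancel]
      have h1 := congrFun (hT _ hX) J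
      refine Eq.trans ?_ h1
      unfold act
      refine Finset.sum_congr rfl fun a _ => ?_
      have h2 : ∀ j, ((Matrix.single u v (1 : ℚ) + Matrix.single v u 1) * A⁻¹ :
          Matrix (Fin n) (Fin n) ℚ) j (J a) =
          (if j = u then A⁻¹ v (J a) else 0) + (if j = v then A⁻¹ u (J a) else 0) := by
        intro j
        rw [Matrix.add_mul, Matrix.add_apply]
        congr 1
        · by_cases h : j = u
          · subst h
            rw [Matrix.single_mul_apply_same, if_pos rfl, one_mul]
          · rw [Matrix.single_mul_apply_of_ne _ _ _ _ _ h, if_neg h]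
        · by_cases h : j = v
          · subst h
            rw [Matrix.single_mul_apply_same, if_pos rfl, one_mul]
          · rw [Matrix.single_mul_apply_of_ne _ _ _ _ _ h, if_neg h]
      simp only [h2, add_smul, ite_smul, zero_smul, Finset.sum_add_distrib, Finset.sum_ite_eq',
        Finset.mem_univ, if_true]
      push_cast
      rw [neg_mul, one_mul, neg_smul, sub_neg_eq_add])
    (by intro i hi; exact absurd hi (by norm_num))
  refine Submodule.span_mono ?_ key
  rintro f ⟨m, e, w, rfl⟩
  refine ⟨m, e, w, ?_⟩
  funext J i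
  unfold gen
  rw [if_pos (fun _ => rfl)]
  rfl

end Pool.Agent.Y492.MT
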